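import Mathlib

namespace Pool.Agent.Results.MP_6ae9d2_nt.Sumset

/-- `u` is the base-`b` digit sum of a positive multiple of `n` -/
def Out (b n u : ℕ) : Prop := ∃ N : ℕ, 0 < N ∧ n ∣ N ∧ (Nat.digits b N).sum = u

theorem toList (b : ℕ) (hb : 2 ≤ b) (N : ℕ) :
    ∃ l : List ℕ, l.length = (Nat.digits b N).sum ∧ (l.map (b ^ ·)).sum = N := by
  induction N using Nat.strong_induction_on with
  | _ N ih =>
    rcases Nat.eq_zero_or_pos N with rfl | hN
    · exact ⟨[], by simp, by simp⟩
    · obtain ⟨l, h1, h2⟩ := ih (N / b) (Nat.div_lt_self hN (by omega))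
      refine ⟨List.replicate (N % b) 0 ++ l.map (· + 1), ?_, ?_⟩
      · rw [Nat.digits_def' (by omega) hN]; simp [h1]
      · have : ((l.map (· + 1)).map (b ^ ·)).sum = (l.map (b ^ ·)).sum * b := by
          rw [List.map_map, ← List.sum_map_mul_right]; congr 1
        rw [List.map_append, List.sum_append, this, h2]
        simp only [List.map_replicate, pow_zero, List.sum_replicate, smul_eq_mul, mul_one]
        exact Nat.mod_add_div' N b

theorem ofList (b n : ℕ) (hb : 2 ≤ b) (i p : ℕ) (hp : 0 < p)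
    (h : (b : ZMod n) ^ (i + p) = (b : ZMod n) ^ i) (l : List ℕ) :
    ∃ N : ℕ, (Nat.digits b N).sum = l.length ∧
      (N : ZMod n) = (b : ZMod n) ^ i * ((l.map (b ^ ·)).sum : ℕ) := by
  have per : ∀ t, (b : ZMod n) ^ (i + p * t) = (b : ZMod n) ^ i := by
    intro t
    induction t with
    | zero => simp
    | succ t ih =>
      have : i + p * (t + 1) = (i + p) + p * t := by ring
      rw [this, pow_add, h, ← pow_add, ih]
  induction l with
  | nil => exact ⟨0, by simp, by simp⟩
  | cons e l ih =>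
    obtain ⟨N, h1, h2⟩ := ih
    set L := (Nat.digits b N).length with hL
    have hle : L ≤ i + p * L + e := by nlinarith
    obtain ⟨k, hk⟩ := Nat.exists_eq_add_of_le hle
    have hd := Nat.digits_append_zeroes_append_digits (b := b) (k := k) (m := 1) (n := N)
      (by omega) one_pos
    refine ⟨N + b ^ (L + k) * 1, ?_, ?_⟩
    · rw [← hd, Nat.digits_of_lt b 1 one_ne_zero (by omega)]; simp [h1]
    · rw [← hk]
      push_cast at h2 ⊢
      rw [h2, pow_add, per, List.map_cons, List.map_cons, List.sum_cons]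
      push_cast; ring

theorem char (b n u : ℕ) (hb : 2 ≤ b) (hn : 0 < n) (hu : 0 < u) :
    Out b n u ↔ ∃ l : List ℕ, l.length = u ∧ n ∣ (l.map (b ^ ·)).sum := by
  constructor
  · rintro ⟨N, -, h1, rfl⟩
    obtain ⟨l, a, c⟩ := toList b hb N
    exact ⟨l, a, c ▸ h1⟩
  · rintro ⟨l, rfl, h⟩
    have : NeZero n := ⟨hn.ne'⟩
    obtain ⟨i, p, hp, e⟩ : ∃ i p, 0 < p ∧ (b : ZMod n) ^ (i + p) = (b : ZMod n) ^ i := by
      obtain ⟨x, y, hxy, e⟩ := Finite.exists_ne_map_eq_of_infinite (fun i : ℕ => (b : ZMod n) ^ i)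
      rcases lt_or_gt_of_ne hxy with c | c
      · exact ⟨x, y - x, by omega, by rw [Nat.add_sub_cancel' c.le]; exact e.symm⟩
      · exact ⟨y, x - y, by omega, by rw [Nat.add_sub_cancel' c.le]; exact e⟩
    obtain ⟨N, h1, h2⟩ := ofList b n hb i p hp e l
    refine ⟨N, ?_, ?_, h1⟩
    · rcases Nat.eq_zero_or_pos N with rfl | c
      · simp at h1; omega
      · exact c
    · rw [← ZMod.natCast_eq_zero_iff, h2, (ZMod.natCast_eq_zero_iff _ _).2 h, mul_zero]

theorem result (b n u : ℕ) (hb : 2 ≤ b) (hn : 0 < n) (hu : 0 < u) :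
    Out b n u ↔ Nat.gcd (b - 1) n ∣ u ∧ (n / Nat.gcd (b - 1) n ≤ u + 1 ∨
      ∃ l : List ℕ, l.length = u ∧ n ∣ (l.map (b ^ ·)).sum) := by
  constructor
  · intro h
    refine ⟨?_, Or.inr ((char b n u hb hn hu).1 h)⟩
    obtain ⟨N, -, h1, rfl⟩ := h
    have hm : b ≡ 1 [MOD Nat.gcd (b - 1) n] :=
      ((Nat.modEq_iff_dvd' (by omega)).2 (Nat.gcd_dvd_left _ _)).symm
    have m := Nat.ofDigits_modEq' b 1 _ hm (Nat.digits b N)
    rw [Nat.ofDigits_digits, Nat.ofDigits_one] at m
    exact (m.dvd_iff dvd_rfl).1 ((Nat.gcd_dvd_right _ _).trans h1)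
  · rintro ⟨hd, h | h⟩
    · rw [char b n u hb hn hu]
      have dp : 0 < Nat.gcd (b - 1) n := Nat.gcd_pos_of_pos_right _ hn
      obtain ⟨c, n', cop, e1, e2⟩ := Nat.exists_coprime (b - 1) n
      generalize Nat.gcd (b - 1) n = d at *
      obtain ⟨t, rfl⟩ := hd
      have n0 : n' ≠ 0 := by rintro rfl; omega
      obtain ⟨y, hy, ey⟩ := Nat.exists_mul_mod_eq_of_coprime ((n' - 1) * t) cop n0
      rw [e2, Nat.mul_div_cancel _ dp] at h
      obtain ⟨x, hx⟩ := Nat.exists_eq_add_of_le (show y ≤ d * t by omega)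
      refine ⟨List.replicate x 0 ++ List.replicate y 1, by simp; omega, ?_⟩
      have s : ((List.replicate x 0 ++ List.replicate y 1).map (b ^ ·)).sum = (t + c * y) * d := by
        have hb' : b = c * d + 1 := by omega
        simp only [List.map_append, List.map_replicate, List.sum_append, List.sum_replicate,
          smul_eq_mul, pow_zero, pow_one, mul_one]
        rw [hb']; nlinarith
      rw [s, e2]
      apply Nat.mul_dvd_mul_right
      have m : t + c * y ≡ t + (n' - 1) * t [MOD n'] := Nat.ModEq.add_left t ey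
      have z : t + (n' - 1) * t = n' * t := by
        obtain ⟨w, rfl⟩ := Nat.exists_eq_succ_of_ne_zero n0
        simp; ring
      rw [z] at m
      exact (Nat.modEq_zero_iff_dvd).1 (m.trans ((Nat.modEq_zero_iff_dvd).2 (dvd_mul_right _ _)))
    · exact (char b n u hb hn hu).2 h

end Pool.Agent.Results.MP_6ae9d2_nt.Sumset
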